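import Pool.Agent.Helper46.KSZ.St

/-! KSZ-E8: facts on the iterated triangle kernels. -/

set_option autoImplicit false
open MeasureTheory

namespace Pool.Agent.Helper9.KSZ

open Pool.Agent.Helper10.QRH Pool.Agent.Helper46.KSZ Pool.Agent.Helper79.QRH

theorem tri_integrable {lam : ℝ} (hl : 0 < lam) : Integrable (tri lam) := by
  refine (tri_cont lam).integrable_of_hasCompactSupport ?_
  refine HasCompactSupport.intro (K := Set.Icc (-lam) lam) isCompact_Icc ?_
  intro v hv
  refine tri_zero hl ?_
  by_contra h
  push Not at h
  exact hv ⟨(abs_lt.1 h).1.le, (abs_lt.1 h).2.le⟩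

theorem tri_integral {lam : ℝ} (hl : 0 < lam) : ∫ v : ℝ, tri lam v = 1 := by
  have h0 : ∫ v : ℝ, tri lam v = ∫ v in (-lam)..lam, tri lam v := by
    rw [intervalIntegral.integral_of_le (by linarith)]
    symm
    apply setIntegral_eq_integral_of_forall_compl_eq_zero
    intro v hv
    apply tri_zero hl
    rw [Set.mem_Ioc, not_and_or, not_lt, not_le] at hv
    rcases hv with h | h
    · rw [le_abs]; right; linarith
    · rw [le_abs]; left; exact h.le
  have hc : ∀ a b : ℝ, IntervalIntegrable (tri lam) volume a b :=
    fun a b => (tri_cont lam).intervalIntegrable a b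
  rw [h0, ← intervalIntegral.integral_add_adjacent_intervals (hc (-lam) 0) (hc 0 lam)]
  have h1 : ∫ v in (-lam)..0, tri lam v = ∫ v in (-lam)..0, (1 / lam + v / lam ^ 2) := by
    apply intervalIntegral.integral_congr
    intro v hv
    rw [Set.uIcc_of_le (by linarith)] at hv
    show tri lam v = _
    unfold tri
    rw [abs_of_nonpos hv.2]
    have : 0 ≤ 1 - -v / lam := by
      have : -v / lam ≤ 1 := (div_le_one hl).2 (by linarith [hv.1])
      linarith
    rw [max_eq_right this]
    field_simp
    ring
  have h2 : ∫ v in (0 : ℝ)..lam, tri lam v = ∫ v in (0 : ℝ)..lam, (1 / lam - v / lam ^ 2) := by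
    apply intervalIntegral.integral_congr
    intro v hv
    rw [Set.uIcc_of_le hl.le] at hv
    show tri lam v = _
    unfold tri
    rw [abs_of_nonneg hv.1]
    have : 0 ≤ 1 - v / lam := by
      have : v / lam ≤ 1 := (div_le_one hl).2 hv.2
      linarith
    rw [max_eq_right this]
    field_simp
  rw [h1, h2]
  rw [intervalIntegral.integral_add (by simp) (by
    apply Continuous.intervalIntegrable; fun_prop)]
  rw [intervalIntegral.integral_sub (by simp) (by
    apply Continuous.intervalIntegrable; fun_prop)]
  simp only [intervalIntegral.integral_const, intervalIntegral.integral_div, integral_id]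
  simp only [smul_eq_mul]
  field_simp
  ring

theorem kerFacts : KerFacts := by
  intro lam hl j
  induction j with
  | zero =>
    refine ⟨tri_cont lam, fun v => tri_nonneg hl, fun v => tri_le hl, ?_⟩
    intro v hv
    refine tri_zero hl ?_
    simpa using hv
  | succ j ih =>
    obtain ⟨hc, hn, hb, hz⟩ := ih
    have hint : Integrable (fun w : ℝ => tri lam w * (1 / lam)) := (tri_integrable hl).mul_const _
    have hle : ∀ v w : ℝ, ‖tri lam w * ker lam j (v - w)‖ ≤ tri lam w * (1 / lam) := by
      intro v w
      rw [Real.norm_of_nonneg (mul_nonneg (tri_nonneg hl) (hn _))]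
      exact mul_le_mul_of_nonneg_left (hb _) (tri_nonneg hl)
    have hcw : ∀ v : ℝ, Continuous fun w : ℝ => tri lam w * ker lam j (v - w) := by
      intro v
      exact (tri_cont lam).mul (hc.comp (continuous_const.sub continuous_id))
    have hi : ∀ v : ℝ, Integrable fun w : ℝ => tri lam w * ker lam j (v - w) := by
      intro v
      exact hint.mono' (hcw v).aestronglyMeasurable (Filter.Eventually.of_forall (hle v))
    refine ⟨?_, ?_, ?_, ?_⟩
    · show Continuous fun v : ℝ => ∫ w : ℝ, tri lam w * ker lam j (v - w)
      refine continuous_of_dominated (bound := fun w : ℝ => tri lam w * (1 / lam))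
        (fun v => (hcw v).aestronglyMeasurable) (fun v => Filter.Eventually.of_forall (hle v))
        hint (Filter.Eventually.of_forall ?_)
      intro w
      exact continuous_const.mul (hc.comp (continuous_id.sub continuous_const))
    · intro v
      show 0 ≤ ∫ w : ℝ, tri lam w * ker lam j (v - w)
      exact integral_nonneg fun w => mul_nonneg (tri_nonneg hl) (hn _)
    · intro v
      show ∫ w : ℝ, tri lam w * ker lam j (v - w) ≤ 1 / lam
      calc ∫ w : ℝ, tri lam w * ker lam j (v - w) ≤ ∫ w : ℝ, tri lam w * (1 / lam) :=
            integral_mono (hi v) hint fun w =>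
              mul_le_mul_of_nonneg_left (hb _) (tri_nonneg hl)
        _ = 1 / lam := by rw [integral_mul_const, tri_integral hl, one_mul]
    · intro v hv
      show ∫ w : ℝ, tri lam w * ker lam j (v - w) = 0
      have : ∀ w : ℝ, tri lam w * ker lam j (v - w) = 0 := by
        intro w
        by_cases hw : lam ≤ |w|
        · rw [tri_zero hl hw, zero_mul]
        · push Not at hw
          rw [hz (v - w), mul_zero]
          push_cast at hv
          have h1 : |v| ≤ |v - w| + |w| := by
            have := abs_add_le (v - w) w
            simpa using this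
          nlinarith
      simp only [this, integral_zero]

end Pool.Agent.Helper9.KSZ
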